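import Pool.Agent.H86.PmB

set_option autoImplicit false

namespace Pool.Agent.Results.MP_04143b_an.Lower

open Filter Topology Pool.Agent.H86.Pmc
open scoped ENNReal

theorem result :
    (∀ n : ℕ, ENNReal.ofReal (1 / (3 * n + 12)) ≤ worstErr n) ∧ 1 / 3 ≤ c6 := by
  refine ⟨lower, ?_⟩
  · have h1 : Tendsto (fun n : ℕ => (n : ℝ) * (1 / (3 * n + 12))) atTop (𝓝 (1 / 3)) := by
      have h0 : Tendsto (fun n : ℕ => (1 : ℝ) / 3 - 4 / (3 * n + 12)) atTop (𝓝 (1 / 3 - 0)) := by
        refine tendsto_const_nhds.sub (Tendsto.div_atTop tendsto_const_nhds ?_)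
        exact tendsto_atTop_add_const_right _ _
          (Tendsto.const_mul_atTop (by norm_num) tendsto_natCast_atTop_atTop)
      rw [sub_zero] at h0
      refine h0.congr fun n => ?_
      have : (0 : ℝ) < 3 * n + 12 := by positivity
      field_simp
      ring
    have h2 := ENNReal.tendsto_ofReal h1
    have h3 : ENNReal.ofReal (1 / 3) = 1 / 3 := by
      rw [ENNReal.ofReal_div_of_pos (by norm_num)]; simp
    rw [← h3, ← h2.limsup_eq]
    refine limsup_le_limsup (Eventually.of_forall fun n => ?_)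
    dsimp only
    rw [ENNReal.ofReal_mul (Nat.cast_nonneg n), ENNReal.ofReal_natCast]
    gcongr
    exact lower n

end Pool.Agent.Results.MP_04143b_an.Lower
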