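import Pool.Agent.H86.PmB

set_option autoImplicit false

namespace Pool.Agent.Results.MP_04143b_an.Upper

open Filter Topology Pool.Agent.H86.Pmc
open scoped ENNReal

theorem result :
    (∀ n : ℕ, 1 ≤ n → worstErr n ≤ ENNReal.ofReal (1 / (2 * n))) ∧ c6 ≤ 1 / 2 := by
  refine ⟨fun n hn => upper hn, ?_⟩
  · refine limsup_le_of_le (h := ?_)
    filter_upwards [eventually_ge_atTop 1] with n hn
    have h0 : (0 : ℝ) < n := by exact_mod_cast hn
    have h3 : ENNReal.ofReal (n * (1 / (2 * n))) = 1 / 2 := by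
      rw [show (n : ℝ) * (1 / (2 * n)) = 1 / 2 by field_simp,
        ENNReal.ofReal_div_of_pos (by norm_num)]
      simp
    rw [← h3, ENNReal.ofReal_mul (Nat.cast_nonneg n), ENNReal.ofReal_natCast]
    gcongr
    exact upper hn

end Pool.Agent.Results.MP_04143b_an.Upper
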